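import Mathlib
import Pool.Agent.TH314.CSD.Attain
import Pool.Agent.TH314.CSD.Scales
import Pool.Agent.H715R2.General
import Pool.Agent.H715R2.Mink
import Pool.Agent.V11109.CSD.Sep

/-! # MP_edeaa2_an: the number of separated values of a counterexample to the conjecture of Cassels
and Swinnerton-Dyer

Let `d ≥ 3`, let `F g` be the product of the linear forms given by the rows of a real invertible
matrix `g`, and let `|F g|` be bounded away from zero at the nonzero integer points.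

1. Let `g` be a counterexample (`F g` is not proportional to an integral form) and let `h` be a
   recurrent form in its orbit closure. For every open set `U` which contains a value of `F h` at a
   nonzero integer point there is `c > 0` such that for all small `ε > 0` at least `c log (1 / ε)`
   values of `F h` in `U` have pairwise distances at least `ε`.
2. Let `T > (d! / d ^ d) |det g|`, or more generally let `T` be such that every product of `d` forms
   with the same absolute determinant takes a value of absolute value `< T` at a nonzero integer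
   point. If for every `c > 0` there are arbitrarily small `ε > 0` for which fewer than
   `c log (1 / ε)` values of `F g` in `(-T, T)` have pairwise distances at least `ε`, then `F g` is
   proportional to an integral form. -/

set_option autoImplicit false

open Filter Topology

namespace Pool.Agent.Results.MP_edeaa2_an.SeparatedValues

variable {d : ℕ}

/-- the product of the linear forms given by the rows of `h`, at an integer point -/
noncomputable def F (h : Matrix (Fin d) (Fin d) ℝ) (x : Fin d → ℤ) : ℝ :=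
  ∏ i : Fin d, ∑ j : Fin d, h i j * (x j : ℝ)

/-- the product of the linear forms is proportional to a form with integer coefficients -/
def PropInt (h : Matrix (Fin d) (Fin d) ℝ) : Prop :=
  ∃ c : ℝ, c ≠ 0 ∧ ∀ m : Fin d →₀ ℕ, ∃ z : ℤ, MvPolynomial.coeff m
    (c • (∏ i : Fin d, ∑ j : Fin d,
      MvPolynomial.C (h i j) * MvPolynomial.X j : MvPolynomial (Fin d) ℝ)) = (z : ℝ)

/-- The closure of the set of matrices `diag(a) g γ` with `a` positive of product one and `γ`
integral of determinant `±1`. -/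
def OrbitClosure (g : Matrix (Fin d) (Fin d) ℝ) : Set (Matrix (Fin d) (Fin d) ℝ) :=
  closure {h | ∃ (a : Fin d → ℝ) (γ : Matrix (Fin d) (Fin d) ℤ), (∀ i, 0 < a i) ∧ ∏ i, a i = 1 ∧
    |γ.det| = 1 ∧ h = Matrix.diagonal a * g * γ.map (Int.cast : ℤ → ℝ)}

/-- The orbit closure of `h` is minimal. -/
def Recurrent (h : Matrix (Fin d) (Fin d) ℝ) : Prop :=
  ∀ h' ∈ OrbitClosure h, h ∈ OrbitClosure h'

/-- `P` consists of values of `F g` in `U` at nonzero integer points, with pairwise distances at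
least `ε`. -/
def SeparatedIn (g : Matrix (Fin d) (Fin d) ℝ) (U : Set ℝ) (ε : ℝ) (P : Finset ℝ) : Prop :=
  (∀ t ∈ P, t ∈ U ∧ ∃ x : Fin d → ℤ, x ≠ 0 ∧ F g x = t) ∧ ∀ s ∈ P, ∀ t ∈ P, s ≠ t → ε ≤ |s - t|

lemma closure_eq (g : Matrix (Fin d) (Fin d) ℝ) : OrbitClosure g = closure (H715R2.Orb g) := by
  unfold OrbitClosure H715R2.Orb
  congr 1
  ext h
  constructor
  · rintro ⟨a, γ, ha0, ha1, hγ, hh⟩
    exact ⟨a, γ, ha0, ha1, Int.isUnit_iff_abs_eq.2 hγ, hh⟩
  · rintro ⟨a, γ, ha0, ha1, hγ, hh⟩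
    exact ⟨a, γ, ha0, ha1, Int.isUnit_iff_abs_eq.1 hγ, hh⟩

lemma recurrent_iff (h : Matrix (Fin d) (Fin d) ℝ) :
    Recurrent h ↔ TH314.CSD.Recurrent h := by
  unfold Recurrent TH314.CSD.Recurrent
  simp only [closure_eq]

/-- values of forms with a recurrent counterexample in the orbit closure -/
lemma separated {g h : Matrix (Fin d) (Fin d) ℝ} (hh : h ∈ closure (H715R2.Orb g))
    (hsc : TH314.CSD.AtAllScales h) {x : Fin d → ℤ} (hx : x ≠ 0) {U : Set ℝ} (hU : IsOpen U)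
    (hxU : F h x ∈ U) :
    ∃ c : ℝ, 0 < c ∧ ∃ ε₁ : ℝ, 0 < ε₁ ∧ ∀ ε : ℝ, 0 < ε → ε < ε₁ → ∃ P : Finset ℝ,
      SeparatedIn g U ε P ∧ c * Real.log (1 / ε) ≤ P.card := by
  obtain ⟨R, hR, ε₀, hε₀, hpair⟩ := hsc x hx U hU hxU
  obtain ⟨c, hc, ε₁, hε₁, hP⟩ := Pool.Agent.V11109.CSD.sep_of_scales
    (S := {t : ℝ | t ∈ U ∧ ∃ y : Fin d → ℤ, y ≠ 0 ∧ F g y = t}) (R := 2 * R + 1) (ε₀ := ε₀ / 2)
    (by linarith) (by linarith) (fun η hη hη' => by
      obtain ⟨y, y', hy, hy', hyU, hyU', hlo, hup⟩ := hpair (2 * η) (by linarith) (by linarith)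
      have hnb : ∀ v : ℝ, v ∈ U → U ∩ Metric.ball v (η / 2) ∈ 𝓝 v := fun v hv =>
        Filter.inter_mem (hU.mem_nhds hv) (Metric.ball_mem_nhds _ (by linarith))
      obtain ⟨z, hz, hzU, hzb⟩ := TH314.CSD.exists_value_near hh hy (hnb _ hyU)
      obtain ⟨z', hz', hzU', hzb'⟩ := TH314.CSD.exists_value_near hh hy' (hnb _ hyU')
      rw [Metric.mem_ball, Real.dist_eq] at hzb hzb'
      refine ⟨_, ⟨hzU, z, hz, rfl⟩, _, ⟨hzU', z', hz', rfl⟩, ?_, ?_⟩
      · rw [abs_lt] at hzb hzb'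
        rcases le_abs.1 hlo with h1 | h1
        · exact le_abs.2 (Or.inl (by linarith))
        · exact le_abs.2 (Or.inr (by linarith))
      · rw [abs_lt] at hzb hzb'
        rw [abs_le] at hup ⊢
        constructor <;> nlinarith [hup.1, hup.2])
  refine ⟨c, hc, ε₁, hε₁, fun ε hε hε' => ?_⟩
  obtain ⟨P, hPS, hsep, hcard⟩ := hP ε hε hε'
  exact ⟨P, ⟨fun t ht => hPS ht, hsep⟩, hcard⟩

theorem result (d : ℕ) (hd : 3 ≤ d) (g : Matrix (Fin d) (Fin d) ℝ) (hg : g.det ≠ 0)
    (ν : ℝ) (hν : 0 < ν) (hF : ∀ x : Fin d → ℤ, x ≠ 0 → ν ≤ |F g x|) :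
    -- 1. recurrent forms in the orbit closure of a counterexample
    (¬ PropInt g → ∀ h ∈ OrbitClosure g, Recurrent h → ∀ U : Set ℝ, IsOpen U →
      (∃ x : Fin d → ℤ, x ≠ 0 ∧ F h x ∈ U) →
      ∃ c : ℝ, 0 < c ∧ ∃ ε₁ : ℝ, 0 < ε₁ ∧ ∀ ε : ℝ, 0 < ε → ε < ε₁ → ∃ P : Finset ℝ,
        SeparatedIn h U ε P ∧ c * Real.log (1 / ε) ≤ P.card) ∧
    -- 2. a criterion
    (∀ T : ℝ, ((d.factorial : ℝ) * |g.det| < (d : ℝ) ^ d * T ∨
        ∀ h : Matrix (Fin d) (Fin d) ℝ, |h.det| = |g.det| →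
          ∃ x : Fin d → ℤ, x ≠ 0 ∧ |F h x| < T) →
      (∀ c : ℝ, 0 < c → ∀ ε₁ : ℝ, 0 < ε₁ → ∃ ε : ℝ, 0 < ε ∧ ε < ε₁ ∧ ∀ P : Finset ℝ,
        SeparatedIn g (Set.Ioo (-T) T) ε P → (P.card : ℝ) < c * Real.log (1 / ε)) →
      PropInt g) := by
  have hd0 : 0 < d := by omega
  refine ⟨?_, ?_⟩
  · rintro hint h hh hrec U hU ⟨x, hx, hxU⟩
    rw [closure_eq] at hh
    obtain ⟨-, h2, -⟩ := TH314.CSD.recurrent_values hd hg hν hF hint hh ((recurrent_iff h).1 hrec)
    exact separated (subset_closure (H715R2.mem_orb_self h)) h2 hx hU hxU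
  · intro T hT hfew
    by_contra hint
    obtain ⟨h, hh, hrec, -⟩ := TH314.CSD.exists_recurrent_attained hd0 hν hg hF
    obtain ⟨-, h2, -⟩ := TH314.CSD.recurrent_values hd hg hν hF hint hh hrec
    have hV : 0 < |g.det| := abs_pos.2 hg
    have hT' : ∃ x : Fin d → ℤ, x ≠ 0 ∧ |F h x| < T := by
      rcases hT with hT | hT
      · exact H715R2.mink_prod hd0 |g.det| T hV hT h (H715R2.abs_det_closure hh)
      · exact hT h (H715R2.abs_det_closure hh)
    obtain ⟨x, hx, hxT⟩ := hT'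
    obtain ⟨c, hc, ε₁, hε₁, hP⟩ := separated hh h2 hx (U := Set.Ioo (-T) T) isOpen_Ioo
      (abs_lt.1 hxT)
    obtain ⟨ε, hε, hε', hno⟩ := hfew c hc ε₁ hε₁
    obtain ⟨P, hPs, hPc⟩ := hP ε hε hε'
    exact absurd (hno P hPs) (not_lt.2 hPc)

end Pool.Agent.Results.MP_edeaa2_an.SeparatedValues
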