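import Mathlib
import Pool.Agent.V1189.RT.Joint

/-!
# The digits of the integer points at which a product of algebraic linear forms is small

Let `F` be the product of `d` linearly independent linear forms in `d` variables with real algebraic
coefficients, `a` an integer vector (for instance a unit vector; then `a · x` is a coordinate of `x`) and
`b ≥ 2`. We consider `r` pairwise disjoint windows of `l` consecutive digits each of the base `b`
expansion of `|a · x|`, for integer points `x`. The joint order of these windows is the least `m` such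
that the `r` words satisfy a common nontrivial relation

  `a_0 s_i + a_1 s_(i+1) + … + a_m s_(i+m) = 0`   (`1 ≤ i ≤ l - m`),   `a_0, …, a_m ∈ ℚ` not all `0`.

By counting equations, it is at most `r l / (r + 1) + 1`. We prove: for every `ε > 0` there are finitely
many proper rational subspaces and a constant `C` such that for all integer points `x` outside these
subspaces and for all windows the joint order is at least

  `(r l - log_b max (1, |F x|)) / (r + d) - ε log |x| - C`.

So for `|F x| ≤ 1` it is at least `r l / (r + d) - o(log |x|)`: the integer points at which a product of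
algebraic linear forms has small values have complex digits, or they lie in finitely many subspaces.
-/

set_option autoImplicit false

namespace Pool.Agent.Results.MP_edeaa2_an.DigitsOfPoints

open Finset
open Pool.Agent.V1189.RT.Joint

/-- the product of the linear forms whose coefficient vectors are the rows of `g` -/
def F {d : ℕ} (g : Matrix (Fin d) (Fin d) ℝ) (x : Fin d → ℤ) : ℝ := ∏ i, ∑ j, g i j * (x j : ℝ)

/-- **The digits of the integer points with small values.** See the text at the beginning of the
file. -/
theorem result (d : ℕ) (hd : 1 ≤ d) (g : Matrix (Fin d) (Fin d) ℝ) (hdet : g.det ≠ 0)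
    (halg : ∀ i j, IsAlgebraic ℚ (g i j)) (a : Fin d → ℤ) (b : ℕ) (hb : 2 ≤ b) (r : ℕ) (hr : 1 ≤ r)
    (ε : ℝ) (hε : 0 < ε) :
    ∃ (S : Finset (Fin d → ℤ)) (C : ℝ), (∀ s ∈ S, s ≠ 0) ∧
      ∀ x : Fin d → ℤ, (∀ s ∈ S, ∑ j, s j * x j ≠ 0) → ∀ (W : Fin r → ℕ) (l : ℕ),
      IsWindows b (∑ j, a j * x j).natAbs r W l →
      ((r : ℝ) * l - Real.logb b (max 1 |F g x|)) / (r + d) - ε * Real.log (height x) - C ≤
        jointOrder b (∑ j, a j * x j).natAbs r W l ∧
      (jointOrder b (∑ j, a j * x j).natAbs r W l : ℝ) ≤ (r : ℝ) / (r + 1) * l + 1 := by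
  have hbR : (2 : ℝ) ≤ b := by exact_mod_cast hb
  obtain ⟨L, hL⟩ : ∃ L : ℝ, L = Real.log b := ⟨_, rfl⟩
  have hL0 : 0 < L := by rw [hL]; exact Real.log_pos (by linarith)
  have hdR : (1 : ℝ) ≤ d := by exact_mod_cast hd
  have hrR : (1 : ℝ) ≤ r := by exact_mod_cast hr
  obtain ⟨S, C, hC, hS, hmain⟩ := jointForms d b r hd hr hb g halg hdet a (ε * ((r + d) * L))
    (by positivity)
  refine ⟨S, C / ((r + d) * L), hS, fun x hx W l hW => ⟨?_, upper _ _ _ _ _⟩⟩
  have h1 := hmain x hx W l hW
  have h2 : Pool.Agent.V1189.RT.logF d g x = Real.log (max 1 |F g x|) := by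
    unfold Pool.Agent.V1189.RT.logF F
    rw [Finset.abs_prod]
  rw [h2, ← hL] at h1
  obtain ⟨m, hm⟩ : ∃ m : ℝ, m = jointOrder b (∑ j, a j * x j).natAbs r W l := ⟨_, rfl⟩
  rw [← hm] at h1 ⊢
  have hp : (0 : ℝ) < (r + d) * L := by positivity
  rw [Real.logb, ← hL, ← mul_le_mul_iff_right₀ hp]
  have h3 : ((r : ℝ) + d) * L * (((r : ℝ) * l - Real.log (max 1 |F g x|) / L) / (r + d) -
      ε * Real.log (height x) - C / ((r + d) * L)) =
      r * l * L - Real.log (max 1 |F g x|) - ε * ((r + d) * L) * Real.log (height x) - C := by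
    field_simp
  rw [h3]
  linarith

end Pool.Agent.Results.MP_edeaa2_an.DigitsOfPoints
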