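import Mathlib
import Pool.Agent.V11299.SP.CsdD

/-! # MP_edeaa2_an: the normalized infima of the counterexamples to the conjecture of Cassels and
Swinnerton-Dyer

Let `d ≥ 3`. For a real matrix `g` let `F g` be the product of the linear forms given by its rows.
Let `S` be the set of the positive normalized infima `inf |F g| / |det g|` of the invertible `g` for
which `F g` is not proportional to an integral form; the conjecture is that `S` is empty.

1. For every `g` and every `n ≥ 1` there is an integral matrix `A` of determinant `n` such that the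
   forms `F (g A)` and `F g` have the same infimum over the nonzero integer points; one is
   proportional to an integral form if and only if the other is.
2. If `F g` is not proportional to an integral form, the following are equivalent for this single
   `g`: its infimum is zero; the set of the positive normalized infima of the multiples `g A`, `A`
   integral of nonzero determinant, is finite; for all `C, δ > 0` this set does not meet some
   interval `[t, t + C t²]`, `0 < t < δ`.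
3. Every element of `S` is the minimum of `|F h|` over the nonzero integer points for some `h` with
   `|det h| = 1` for which `F h` is not proportional to an integral form. `S ∪ {0}` is compact. `S`
   is closed under division by positive integers. If `ν` is in `S`, then `S` meets all intervals
   `[t, t + (2/ν) t²]`, `0 < t ≤ ν`. If `S` does not meet `[t, 2t)`, then all its elements are
   smaller than `t`.
4. The following are equivalent: the conjecture in dimension `d`; `S` is finite; for all `C, δ > 0`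
   the set `S` does not meet some interval `[t, t + C t²]`, `0 < t < δ`; there is a nonempty open
   set of invertible matrices for which the conjecture holds.
5. Let `d = 3`. If `c > 0` is the limit inferior of `q ⟨qα⟩ ⟨qβ⟩`, then `S` has an element `≥ c`. So
   if `S` does not meet `[t, 2t)`, then `liminf q ⟨qα⟩ ⟨qβ⟩ < t` for all real `α, β`. -/

set_option autoImplicit false

open Filter Topology

namespace Pool.Agent.Results.MP_edeaa2_an.InfimumSpectrum

variable {d : ℕ}

/-- the product of the linear forms given by the rows of `h`, at an integer point -/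
noncomputable def F (h : Matrix (Fin d) (Fin d) ℝ) (x : Fin d → ℤ) : ℝ :=
  ∏ i : Fin d, ∑ j : Fin d, h i j * (x j : ℝ)

/-- the product of the linear forms is proportional to a form with integer coefficients -/
def PropInt (h : Matrix (Fin d) (Fin d) ℝ) : Prop :=
  ∃ c : ℝ, c ≠ 0 ∧ ∀ m : Fin d →₀ ℕ, ∃ z : ℤ, MvPolynomial.coeff m
    (c • (∏ i : Fin d, ∑ j : Fin d,
      MvPolynomial.C (h i j) * MvPolynomial.X j : MvPolynomial (Fin d) ℝ)) = (z : ℝ)

/-- `ν` is the infimum of `|F g|` over the nonzero integer points -/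
def HasInf (g : Matrix (Fin d) (Fin d) ℝ) (ν : ℝ) : Prop :=
  IsGLB {t : ℝ | ∃ x : Fin d → ℤ, x ≠ 0 ∧ |F g x| = t} ν

/-- the infimum of `|F g|` over the nonzero integer points is zero -/
def InfZero (g : Matrix (Fin d) (Fin d) ℝ) : Prop :=
  ∀ ε : ℝ, 0 < ε → ∃ x : Fin d → ℤ, x ≠ 0 ∧ |F g x| < ε

/-- the positive normalized infima of the invertible `g` in `X` for which `F g` is not proportional
to an integral form -/
def Spectrum (X : Set (Matrix (Fin d) (Fin d) ℝ)) : Set ℝ :=
  {ν | 0 < ν ∧ ∃ g ∈ X, g.det ≠ 0 ∧ ¬ PropInt g ∧ HasInf g (ν * |g.det|)}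

/-- the multiples `g A`, `A` integral of nonzero determinant -/
def Multiples (g : Matrix (Fin d) (Fin d) ℝ) : Set (Matrix (Fin d) (Fin d) ℝ) :=
  {h | ∃ A : Matrix (Fin d) (Fin d) ℤ, A.det ≠ 0 ∧ h = g * A.map (Int.cast : ℤ → ℝ)}

/-- for all `C, δ > 0` some interval `[t, t + C t²]`, `0 < t < δ`, does not meet `S` -/
def Gaps (S : Set ℝ) : Prop :=
  ∀ C : ℝ, 0 < C → ∀ δ : ℝ, 0 < δ → ∃ t : ℝ, 0 < t ∧ t < δ ∧
    ∀ s ∈ S, ¬ (t ≤ s ∧ s ≤ t + C * t ^ 2)

/-- `q ⟨qα⟩ ⟨qβ⟩` -/
noncomputable def littlewood (α β : ℝ) (q : ℕ) : ℝ :=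
  (q : ℝ) * |(q : ℝ) * α - (round ((q : ℝ) * α) : ℝ)|
    * |(q : ℝ) * β - (round ((q : ℝ) * β) : ℝ)|

lemma spectrum_eq (X : Set (Matrix (Fin d) (Fin d) ℝ)) : Spectrum X = V11299.SP.Spec X := rfl

theorem result (d : ℕ) (hd : 3 ≤ d) :
    -- 1. sublattices
    (∀ (g : Matrix (Fin d) (Fin d) ℝ) (ν : ℝ), HasInf g ν → ∀ n : ℕ, 0 < n →
      ∃ A : Matrix (Fin d) (Fin d) ℤ, A.det = n ∧
        HasInf (g * A.map (Int.cast : ℤ → ℝ)) ν ∧
        (PropInt (g * A.map (Int.cast : ℤ → ℝ)) ↔ PropInt g)) ∧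
    -- 2. a single form
    (∀ g : Matrix (Fin d) (Fin d) ℝ, g.det ≠ 0 → ¬ PropInt g → List.TFAE [
      InfZero g,
      (Spectrum (Multiples g)).Finite,
      Gaps (Spectrum (Multiples g))]) ∧
    -- 3. the spectrum
    (∀ ν ∈ Spectrum (Set.univ : Set (Matrix (Fin d) (Fin d) ℝ)),
      (∃ h : Matrix (Fin d) (Fin d) ℝ, |h.det| = 1 ∧ ¬ PropInt h ∧
        ∃ x₀ : Fin d → ℤ, x₀ ≠ 0 ∧ |F h x₀| = ν ∧ ∀ x : Fin d → ℤ, x ≠ 0 → ν ≤ |F h x|) ∧
      (∀ n : ℕ, 0 < n → ν / n ∈ Spectrum (Set.univ : Set (Matrix (Fin d) (Fin d) ℝ))) ∧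
      (∀ t : ℝ, 0 < t → t ≤ ν → ∃ s ∈ Spectrum (Set.univ : Set (Matrix (Fin d) (Fin d) ℝ)),
        t ≤ s ∧ s ≤ t + 2 / ν * t ^ 2)) ∧
    IsCompact (Spectrum (Set.univ : Set (Matrix (Fin d) (Fin d) ℝ)) ∪ {0}) ∧
    (∀ t : ℝ, 0 < t →
      (∀ s ∈ Spectrum (Set.univ : Set (Matrix (Fin d) (Fin d) ℝ)), ¬ (t ≤ s ∧ s < 2 * t)) →
      (∀ s ∈ Spectrum (Set.univ : Set (Matrix (Fin d) (Fin d) ℝ)), s < t) ∧
      -- 5. Littlewood's problem
      (d = 3 → ∀ (α β : ℝ) (N : ℕ), ∃ q : ℕ, N ≤ q ∧ 0 < q ∧ littlewood α β q < t)) ∧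
    (d = 3 → ∀ α β c : ℝ, 0 < c →
      liminf (fun q : ℕ => ((littlewood α β q : ℝ) : EReal)) atTop = (c : EReal) →
      ∃ s ∈ Spectrum (Set.univ : Set (Matrix (Fin d) (Fin d) ℝ)), c ≤ s) ∧
    -- 4. the conjecture
    List.TFAE [
      ∀ g : Matrix (Fin d) (Fin d) ℝ, g.det ≠ 0 → ¬ PropInt g → InfZero g,
      (Spectrum (Set.univ : Set (Matrix (Fin d) (Fin d) ℝ))).Finite,
      Gaps (Spectrum (Set.univ : Set (Matrix (Fin d) (Fin d) ℝ))),
      ∃ U : Set (Matrix (Fin d) (Fin d) ℝ), IsOpen U ∧ U.Nonempty ∧ (∀ g ∈ U, g.det ≠ 0) ∧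
        ∀ g ∈ U, ¬ PropInt g → InfZero g] := by
  have hd2 : 2 ≤ d := by omega
  have hd0 : 0 < d := by omega
  have hdiv : ∀ ν ∈ V11299.SP.Spec (Set.univ : Set (Matrix (Fin d) (Fin d) ℝ)),
      ∀ n : ℕ, 0 < n → ν / n ∈ V11299.SP.Spec (Set.univ : Set (Matrix (Fin d) (Fin d) ℝ)) :=
    fun ν hν n hn => V11299.SP.spec_div hd2 (fun _ _ _ _ => Set.mem_univ _) hν hn
  have hlit : d = 3 → ∀ α β c : ℝ, 0 < c → V11299.SP.IsLim (V11299.SP.lw α β) c →
      ∃ s ∈ V11299.SP.Spec (Set.univ : Set (Matrix (Fin d) (Fin d) ℝ)), c ≤ s := by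
    rintro rfl α β c hc hlim
    exact V11299.SP.exists_spec_ge hc hlim
  refine ⟨fun g ν h n hn => ?_, fun g hdet hint => ?_, fun ν hν => ⟨?_, hdiv ν hν, fun t ht htν =>
    V11299.SP.spec_near hd2 (fun _ _ _ _ => Set.mem_univ _) hν ht htν⟩,
    V11299.SP.spec_compact hd, fun t ht hwin => ?_, fun h3 α β c hc hlim => ?_, ?_⟩
  · obtain ⟨A, hA, hG⟩ := V11299.SP.exists_div_csd hd2 (g := g) (ν := ν) h n hn
    refine ⟨A, hA, hG, ?_⟩
    exact V11299.SP.propInt_mul_iff (by rw [hA]; exact_mod_cast hn.ne')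
  · have hX : ∀ h ∈ V11299.SP.Mul g, ∀ A : Matrix (Fin d) (Fin d) ℤ, A.det ≠ 0 →
        h * H715R2.zR A ∈ V11299.SP.Mul g := fun h hh A hA => V11299.SP.Mul_trans hh hA
    tfae_have 1 → 2 := by
      intro h
      have : Spectrum (Multiples g) = ∅ := by
        rw [Set.eq_empty_iff_forall_notMem]
        rintro ν ⟨hν, _, ⟨A, hA, rfl⟩, hdetA, -, hG⟩
        exact V11299.SP.not_zero_of_gl (mul_pos hν (abs_pos.2 hdetA)) hG
          (V11299.SP.zero_mul_of_zero h hA)
      rw [this]
      exact Set.finite_empty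
    tfae_have 2 → 3 := V11299.SP.gaps_of_finite fun s hs => hs.1
    tfae_have 3 → 1 := by
      intro h
      by_contra hz
      have h1 := V11299.SP.spec_of_not_zero hd0 (V11299.SP.self_mem_Mul g) hdet hint hz
      rw [V11299.SP.spec_empty_of_gaps hd2 hX h] at h1
      exact Set.not_nonempty_empty h1
    tfae_finish
  · obtain ⟨h, h1, h2, h3, x₀, h4, h5⟩ := V11299.SP.spec_attained hd hν
    exact ⟨h, h1, h2, x₀, h4, h5, h3⟩
  · have hall := V11299.SP.window (fun s hs => hs.1) hdiv ht hwin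
    refine ⟨hall, fun h3 α β N => ?_⟩
    obtain ⟨c, hc0, hc⟩ := V11299.SP.exists_isLim α β
    have hct : c < t := by
      rcases hc0.eq_or_lt with rfl | hpos
      · exact ht
      · obtain ⟨s, hs, hcs⟩ := hlit h3 α β c hpos hc
        exact hcs.trans_lt (hall s hs)
    obtain ⟨q, hq, hlt⟩ := frequently_atTop.1 (hc.2 t hct) (N + 1)
    exact ⟨q, by omega, by omega, hlt⟩
  · exact hlit h3 α β c hc ((V11299.SP.isLim_iff _ _).1 hlim)
  · tfae_have 1 → 2 := by
      intro h
      have : Spectrum (Set.univ : Set (Matrix (Fin d) (Fin d) ℝ)) = ∅ := by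
        rw [Set.eq_empty_iff_forall_notMem]
        rintro ν ⟨hν, g, -, hdet, hint, hG⟩
        exact V11299.SP.not_zero_of_gl (mul_pos hν (abs_pos.2 hdet)) hG (h g hdet hint)
      rw [this]
      exact Set.finite_empty
    tfae_have 2 → 3 := V11299.SP.gaps_of_finite fun s hs => hs.1
    tfae_have 3 → 1 := by
      intro h g hdet hint
      by_contra hz
      have h1 := V11299.SP.spec_of_not_zero hd0 (Set.mem_univ g) hdet hint hz
      rw [V11299.SP.spec_empty_of_gaps hd2 (fun _ _ _ _ => Set.mem_univ _) h] at h1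
      exact Set.not_nonempty_empty h1
    tfae_have 1 → 4 := by
      intro h
      refine ⟨{g | g.det ≠ 0}, isOpen_ne_fun H715R2.continuous_det' continuous_const,
        ⟨1, by simp⟩, fun g hg => hg, fun g hg hint => h g hg hint⟩
    tfae_have 4 → 1 := by
      rintro ⟨U, hU, ⟨u, hu⟩, hUdet, hUz⟩ g hdet hint
      by_contra hz
      obtain ⟨h, hh, -, h2, h3⟩ := V11299.SP.dense_csd hdet hint hz hU hu (hUdet u hu)
      exact h3 (hUz h hh h2)
    tfae_finish

end Pool.Agent.Results.MP_edeaa2_an.InfimumSpectrum
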