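import Mathlib
import Pool.Agent.V11109.CSD.Iso
import Pool.Agent.H715R2.Uncountable
import Pool.Agent.H715R2.Mink

/-! # MP_edeaa2_an: the threshold of the conjecture of Cassels and Swinnerton-Dyer

Let `d ≥ 3` and let `F g` be the product of the linear forms given by the rows of a real `d × d`
matrix `g`. There is a threshold `νs ≥ 0` (depending on `d`) with the following properties.

1. For every `ν > νs` the forms `F g` with `|det g| = 1` and `|F g| ≥ ν` at the nonzero integer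
   points are proportional to integral forms and lie in finitely many classes of equivalence.
2. If `νs > 0`, there is a form `F h₀` with `|det h₀| = 1` which is recurrent, whose absolute value
   attains its minimum over the nonzero integer points, with minimum exactly `νs`, such that no
   form in the orbit closure is proportional to an integral form, all of them have infimum exactly
   `νs`, and they do not lie in countably many classes, even up to proportionality.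
   Near every value of `F h₀`, in particular near its minimal value, there are differences of values
   at all scales.
3. The conjecture in dimension `d` holds if and only if `νs = 0`, and if and only if the forms which
   are bounded away from zero at the nonzero integer points lie in countably many classes up to
   proportionality. -/

set_option autoImplicit false

open Filter Topology

namespace Pool.Agent.Results.MP_edeaa2_an.Threshold

variable {d : ℕ}

/-- the product of the linear forms given by the rows of `h`, at an integer point -/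
noncomputable def F (h : Matrix (Fin d) (Fin d) ℝ) (x : Fin d → ℤ) : ℝ :=
  ∏ i : Fin d, ∑ j : Fin d, h i j * (x j : ℝ)

/-- the product of the linear forms is proportional to a form with integer coefficients -/
def PropInt (h : Matrix (Fin d) (Fin d) ℝ) : Prop :=
  ∃ c : ℝ, c ≠ 0 ∧ ∀ m : Fin d →₀ ℕ, ∃ z : ℤ, MvPolynomial.coeff m
    (c • (∏ i : Fin d, ∑ j : Fin d,
      MvPolynomial.C (h i j) * MvPolynomial.X j : MvPolynomial (Fin d) ℝ)) = (z : ℝ)

/-- the absolute value of the product is at least `ν` at the nonzero integer points -/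
def AtLeast (ν : ℝ) (h : Matrix (Fin d) (Fin d) ℝ) : Prop :=
  ∀ x : Fin d → ℤ, x ≠ 0 → ν ≤ |F h x|

/-- The forms `F g` and `c F h` differ by a change of variables in `GL(d, ℤ)`. -/
def EquivTo (c : ℝ) (g h : Matrix (Fin d) (Fin d) ℝ) : Prop :=
  ∃ γ : Matrix (Fin d) (Fin d) ℤ, |γ.det| = 1 ∧ ∀ x : Fin d → ℤ, F g x = c * F h (γ.mulVec x)

/-- The closure of the set of matrices `diag(a) g γ` with `a` positive of product one and `γ`
integral of determinant `±1`. -/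
def OrbitClosure (g : Matrix (Fin d) (Fin d) ℝ) : Set (Matrix (Fin d) (Fin d) ℝ) :=
  closure {h | ∃ (a : Fin d → ℝ) (γ : Matrix (Fin d) (Fin d) ℤ), (∀ i, 0 < a i) ∧ ∏ i, a i = 1 ∧
    |γ.det| = 1 ∧ h = Matrix.diagonal a * g * γ.map (Int.cast : ℤ → ℝ)}

/-- The orbit closure of `h` is minimal. -/
def Recurrent (h : Matrix (Fin d) (Fin d) ℝ) : Prop :=
  ∀ h' ∈ OrbitClosure h, h ∈ OrbitClosure h'

/-- In every open set which contains a value of `F h` at a nonzero integer point there are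
differences of such values at all scales. -/
def AllScales (h : Matrix (Fin d) (Fin d) ℝ) : Prop :=
  ∀ x : Fin d → ℤ, x ≠ 0 → ∀ U : Set ℝ, IsOpen U → F h x ∈ U →
    ∃ R : ℝ, 1 < R ∧ ∃ ε : ℝ, 0 < ε ∧ ∀ η : ℝ, 0 < η → η < ε →
      ∃ y y' : Fin d → ℤ, y ≠ 0 ∧ y' ≠ 0 ∧ F h y ∈ U ∧ F h y' ∈ U ∧
        η ≤ |F h y - F h y'| ∧ |F h y - F h y'| ≤ R * η

/-- the conjecture of Cassels and Swinnerton-Dyer in dimension `d` -/
def Conj (d : ℕ) : Prop :=
  ∀ g : Matrix (Fin d) (Fin d) ℝ, g.det ≠ 0 → ¬ PropInt g →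
    ∀ ε : ℝ, 0 < ε → ∃ x : Fin d → ℤ, x ≠ 0 ∧ |F g x| < ε

lemma closure_eq (g : Matrix (Fin d) (Fin d) ℝ) : OrbitClosure g = closure (H715R2.Orb g) := by
  unfold OrbitClosure H715R2.Orb
  congr 1
  ext h
  constructor
  · rintro ⟨a, γ, ha0, ha1, hγ, hh⟩
    exact ⟨a, γ, ha0, ha1, Int.isUnit_iff_abs_eq.2 hγ, hh⟩
  · rintro ⟨a, γ, ha0, ha1, hγ, hh⟩
    exact ⟨a, γ, ha0, ha1, Int.isUnit_iff_abs_eq.1 hγ, hh⟩

lemma recurrent_iff (h : Matrix (Fin d) (Fin d) ℝ) :
    Recurrent h ↔ TH314.CSD.Recurrent h := by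
  unfold Recurrent TH314.CSD.Recurrent
  simp only [closure_eq]

lemma F_smul (t : ℝ) (g : Matrix (Fin d) (Fin d) ℝ) (x : Fin d → ℤ) :
    F (t • g) x = t ^ d * F g x := by
  unfold F
  have h1 : ∀ i : Fin d, ∑ j : Fin d, (t • g) i j * (x j : ℝ) = t * ∑ j, g i j * (x j : ℝ) := by
    intro i
    rw [Finset.mul_sum]
    refine Finset.sum_congr rfl fun j _ => ?_
    rw [Matrix.smul_apply, smul_eq_mul, mul_assoc]
  rw [Finset.prod_congr rfl fun i _ => h1 i, Finset.prod_mul_distrib, Finset.prod_const,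
    Finset.card_univ, Fintype.card_fin]

lemma propInt_smul {t : ℝ} (ht : t ≠ 0) {g : Matrix (Fin d) (Fin d) ℝ} (h : PropInt g) :
    PropInt (t • g) := by
  obtain ⟨c, hc, hz⟩ := h
  refine ⟨c * (t ^ d)⁻¹, mul_ne_zero hc (inv_ne_zero (pow_ne_zero _ ht)), fun m => ?_⟩
  obtain ⟨z, hz⟩ := hz m
  refine ⟨z, ?_⟩
  rw [← hz]
  congr 1
  have h1 : ∀ i : Fin d, (∑ j : Fin d, MvPolynomial.C ((t • g) i j) * MvPolynomial.X j :
      MvPolynomial (Fin d) ℝ) = MvPolynomial.C t *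
        ∑ j : Fin d, MvPolynomial.C (g i j) * MvPolynomial.X j := by
    intro i
    rw [Finset.mul_sum]
    refine Finset.sum_congr rfl fun j _ => ?_
    rw [Matrix.smul_apply, smul_eq_mul, MvPolynomial.C_mul, mul_assoc]
  rw [Finset.prod_congr rfl fun i _ => h1 i, Finset.prod_mul_distrib, Finset.prod_const,
    Finset.card_univ, Fintype.card_fin, ← MvPolynomial.C_pow, MvPolynomial.smul_eq_C_mul,
    MvPolynomial.smul_eq_C_mul, ← mul_assoc, ← MvPolynomial.C_mul]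
  congr 2
  rw [mul_assoc, inv_mul_cancel₀ (pow_ne_zero _ ht), mul_one]

/-- scaling to absolute determinant one -/
lemma exists_norm (hd : 0 < d) {g : Matrix (Fin d) (Fin d) ℝ} (hg : g.det ≠ 0) :
    ∃ t : ℝ, 0 < t ∧ |(t • g).det| = 1 ∧ ∀ x, F g x = |g.det| * F (t • g) x := by
  have hV : 0 < |g.det| := abs_pos.2 hg
  have hdR : (0 : ℝ) < d := by exact_mod_cast hd
  set t : ℝ := |g.det| ^ (-(1 : ℝ) / d) with ht
  have ht0 : 0 < t := Real.rpow_pos_of_pos hV _
  have htd : t ^ d = |g.det|⁻¹ := by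
    rw [ht, ← Real.rpow_natCast, ← Real.rpow_mul hV.le, div_mul_cancel₀ _ hdR.ne',
      Real.rpow_neg_one]
  refine ⟨t, ht0, ?_, fun x => ?_⟩
  · rw [Matrix.det_smul, Fintype.card_fin, htd, abs_mul, abs_inv, abs_abs, inv_mul_cancel₀ hV.ne']
  · rw [F_smul, htd, ← mul_assoc, mul_inv_cancel₀ hV.ne', one_mul]

lemma det_of_abs_one {h : Matrix (Fin d) (Fin d) ℝ} (hh : |h.det| = 1) : h.det ≠ 0 := by
  intro h0
  rw [h0, abs_zero] at hh
  exact zero_ne_one hh

/-- reduction to a box -/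
lemma exists_box (hd : 0 < d) {ν : ℝ} (hν : 0 < ν) : ∃ R : ℝ, ∀ h : Matrix (Fin d) (Fin d) ℝ,
    |h.det| = 1 → AtLeast ν h → ∃ γ : Matrix (Fin d) (Fin d) ℤ, IsUnit γ.det ∧
      (∀ i j, |(h * H715R2.zR γ) i j| ≤ R) ∧ h * H715R2.zR γ ∈ H715R2.Orb h ∧
        h * H715R2.zR γ ∈ Pool.Agent.V11109.CSD.KK d 1 ν := by
  obtain ⟨R, hR⟩ := H715R2.exists_bound hd 1 ν one_pos hν
  refine ⟨R, fun h hdet hnu => ?_⟩
  obtain ⟨γ, hγ, hb⟩ := hR h hdet hnu
  have hmem : h * H715R2.zR γ ∈ H715R2.Orb h := by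
    refine ⟨fun _ => 1, γ, fun _ => one_pos, by simp, hγ, ?_⟩
    rw [Matrix.diagonal_one, Matrix.one_mul]
  refine ⟨γ, hγ, hb, hmem, ?_⟩
  exact Pool.Agent.V11109.CSD.closure_sub_KK (V := 1) (ν := ν) ⟨hdet, hnu⟩ (subset_closure hmem)

/-- the set of lower bounds of counterexamples -/
def Low (d : ℕ) : Set ℝ :=
  {ν | ∃ g : Matrix (Fin d) (Fin d) ℝ, |g.det| = 1 ∧ ¬ PropInt g ∧ AtLeast ν g}

lemma low_bdd (hd : 0 < d) : BddAbove (Low d) := by
  refine ⟨(d.factorial : ℝ) + 1, ?_⟩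
  rintro ν ⟨g, hdet, -, hnu⟩
  obtain ⟨x, hx, hxT⟩ := H715R2.mink_prod hd 1 ((d.factorial : ℝ) + 1) one_pos (by
    have h1 : (1 : ℝ) ≤ (d : ℝ) ^ d := one_le_pow₀ (by exact_mod_cast hd)
    have h2 : (0 : ℝ) ≤ d.factorial := by positivity
    nlinarith) g hdet
  exact (hnu x hx).trans (le_of_lt hxT)

/-- the supremum is attained -/
lemma low_attained (hd : 3 ≤ d) (hpos : 0 < sSup (Low d)) :
    ∃ g : Matrix (Fin d) (Fin d) ℝ, |g.det| = 1 ∧ ¬ PropInt g ∧ AtLeast (sSup (Low d)) g := by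
  classical
  have hd0 : 0 < d := by omega
  set s := sSup (Low d) with hs
  have hne : (Low d).Nonempty := by
    by_contra hcon
    rw [Set.not_nonempty_iff_eq_empty] at hcon
    rw [hs, hcon, Real.sSup_empty] at hpos
    exact lt_irrefl _ hpos
  -- a sequence
  have hseq : ∀ n : ℕ, ∃ g : Matrix (Fin d) (Fin d) ℝ, |g.det| = 1 ∧ ¬ PropInt g ∧
      AtLeast (max (s / 2) (s - 1 / ((n : ℝ) + 1))) g := by
    intro n
    have h1 : max (s / 2) (s - 1 / ((n : ℝ) + 1)) < s := by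
      refine max_lt (by linarith) ?_
      have : (0 : ℝ) < 1 / ((n : ℝ) + 1) := by positivity
      linarith
    obtain ⟨ν, ⟨g, h2, h3, h4⟩, h5⟩ := exists_lt_of_lt_csSup hne h1
    exact ⟨g, h2, h3, fun x hx => h5.le.trans (h4 x hx)⟩
  choose g hgdet hgint hgnu using hseq
  have hs2 : 0 < s / 2 := by linarith
  obtain ⟨R, hR⟩ := exists_box hd0 hs2
  choose γ hγu hγb hγO hγK using fun n => hR (g n) (hgdet n)
    (fun x hx => (le_max_left _ _).trans (hgnu n x hx))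
  obtain ⟨h', -, φ, hφ, hlim⟩ := (H715R2.isCompact_box (d := d) R).tendsto_subseq hγb
  have hK : h' ∈ Pool.Agent.V11109.CSD.KK d 1 (s / 2) :=
    (Pool.Agent.V11109.CSD.KK_closed 1 (s / 2)).mem_of_tendsto hlim
      (Eventually.of_forall fun n => hγK _)
  refine ⟨h', hK.1, ?_, ?_⟩
  · intro hP
    have hiso := Pool.Agent.V11109.CSD.isolated hd one_pos hs2 hK hP
    have hw : Tendsto (fun n => g (φ n) * H715R2.zR (γ (φ n))) atTop
        (𝓝[Pool.Agent.V11109.CSD.KK d 1 (s / 2)] h') :=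
      tendsto_nhdsWithin_iff.2 ⟨hlim, Eventually.of_forall fun n => hγK _⟩
    obtain ⟨n, a, ha0, ha1, hn⟩ := (hw.eventually hiso).exists
    have h1 : g (φ n) * H715R2.zR (γ (φ n)) ∈ closure (H715R2.Orb h') := by
      refine subset_closure ⟨a, 1, ha0, ha1, by simp, ?_⟩
      rw [hn]
      simp [H715R2.zR]
    have h2 : H715R2.PropInt (g (φ n) * H715R2.zR (γ (φ n))) :=
      Pool.Agent.Y327.propInt_closure hd (det_of_abs_one hK.1) hs2 hK.2 hP h1
    refine Pool.Agent.Y327.not_propInt_closure hd (det_of_abs_one (hgdet (φ n))) hs2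
      (fun x hx => (le_max_left _ _).trans (hgnu (φ n) x hx)) (hgint (φ n))
      (subset_closure (hγO (φ n))) h2
  · -- the lower bound
    intro x hx
    have hcont : Continuous (fun h : Matrix (Fin d) (Fin d) ℝ => |H715R2.FF h (H715R2.iR x)|) :=
      continuous_abs.comp (H715R2.continuous_FF _)
    have hl := (hcont.tendsto h').comp hlim
    have hr : Tendsto (fun n : ℕ => s - 1 / (((φ n : ℕ) : ℝ) + 1)) atTop (𝓝 (s - 0)) :=
      tendsto_const_nhds.sub
        ((tendsto_one_div_add_atTop_nhds_zero_nat (𝕜 := ℝ)).comp hφ.tendsto_atTop)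
    rw [sub_zero] at hr
    refine le_of_tendsto_of_tendsto' hr hl fun n => ?_
    have h3 : H715R2.HasNu (g (φ n)) (s - 1 / (((φ n : ℕ) : ℝ) + 1)) :=
      fun y hy => (le_max_right _ _).trans (hgnu (φ n) y hy)
    exact H715R2.hasNu_closure h3 (subset_closure (hγO (φ n))) x hx

/-- finitely many classes above the threshold -/
lemma finite_above (hd : 3 ≤ d) {ν : ℝ} (hν : 0 < ν)
    (hall : ∀ g : Matrix (Fin d) (Fin d) ℝ, |g.det| = 1 → AtLeast ν g → PropInt g) :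
    ∃ S : Finset (Matrix (Fin d) (Fin d) ℝ), (∀ h ∈ S, |h.det| = 1 ∧ AtLeast ν h) ∧
      ∀ g : Matrix (Fin d) (Fin d) ℝ, |g.det| = 1 → AtLeast ν g → ∃ h ∈ S, EquivTo 1 g h := by
  classical
  have hd0 : 0 < d := by omega
  obtain ⟨R, hR⟩ := exists_box hd0 hν
  set B : Set (Matrix (Fin d) (Fin d) ℝ) := {h | ∀ i j, |h i j| ≤ R} ∩
    Pool.Agent.V11109.CSD.KK d 1 ν with hB
  have hBc : IsCompact B :=
    (H715R2.isCompact_box (d := d) R).inter_right (Pool.Agent.V11109.CSD.KK_closed 1 ν)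
  have hiso : ∀ h₀ ∈ B, ∃ U ∈ 𝓝 h₀, ∀ h ∈ U, h ∈ Pool.Agent.V11109.CSD.KK d 1 ν →
      ∃ a : Fin d → ℝ, (∀ i, 0 < a i) ∧ ∏ i, a i = 1 ∧ h = Matrix.diagonal a * h₀ := by
    intro h₀ hh₀
    have h1 := Pool.Agent.V11109.CSD.isolated hd one_pos hν hh₀.2 (hall h₀ hh₀.2.1 hh₀.2.2)
    rw [eventually_nhdsWithin_iff] at h1
    exact ⟨_, h1, fun h hh hK => hh hK⟩
  choose! U hU hUa using hiso
  obtain ⟨S, hSB, hS⟩ := hBc.elim_nhds_subcover U hU
  refine ⟨S, fun h hh => ⟨(hSB h hh).2.1, (hSB h hh).2.2⟩, fun g hdet hnu => ?_⟩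
  obtain ⟨γ, hγu, hγb, -, hγK⟩ := hR g hdet hnu
  have hmem := hS (show g * H715R2.zR γ ∈ B from ⟨hγb, hγK⟩)
  simp only [Set.mem_iUnion] at hmem
  obtain ⟨h₀, hh₀S, hh₀⟩ := hmem
  obtain ⟨a, ha0, ha1, ha⟩ := hUa h₀ (hSB h₀ hh₀S) _ hh₀ hγK
  refine ⟨h₀, hh₀S, γ⁻¹, ?_, fun x => ?_⟩
  · rw [← Int.isUnit_iff_abs_eq]
    exact (Matrix.isUnit_nonsing_inv_det_iff).2 hγu
  · have h1 : F g x = H715R2.FF (g * H715R2.zR γ) (H715R2.iR (γ⁻¹.mulVec x)) := by
      have h2 := H715R2.FF_orb (a := fun _ => 1) (by simp) g γ (γ⁻¹.mulVec x)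
      rw [Matrix.diagonal_one, Matrix.one_mul] at h2
      rw [h2, Matrix.mulVec_mulVec, Matrix.mul_nonsing_inv _ hγu, Matrix.one_mulVec]
      rfl
    rw [h1, ha, H715R2.FF_diag_mul, ha1, one_mul, one_mul]
    rfl

theorem result (d : ℕ) (hd : 3 ≤ d) :
    (∃ νs : ℝ, 0 ≤ νs ∧
      -- 1. above the threshold
      (∀ ν : ℝ, νs < ν → ∃ S : Finset (Matrix (Fin d) (Fin d) ℝ),
        (∀ h ∈ S, |h.det| = 1 ∧ AtLeast ν h ∧ PropInt h) ∧
        ∀ g : Matrix (Fin d) (Fin d) ℝ, |g.det| = 1 → AtLeast ν g →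
          PropInt g ∧ ∃ h ∈ S, EquivTo 1 g h) ∧
      -- 2. at a positive threshold
      (0 < νs → ∃ h₀ : Matrix (Fin d) (Fin d) ℝ, Recurrent h₀ ∧
        (∃ x₀ : Fin d → ℤ, x₀ ≠ 0 ∧ |F h₀ x₀| = νs) ∧
        (∀ h ∈ OrbitClosure h₀, |h.det| = 1 ∧ ¬ PropInt h ∧
          IsGLB {t : ℝ | ∃ x : Fin d → ℤ, x ≠ 0 ∧ |F h x| = t} νs) ∧
        (∀ S : ℕ → Matrix (Fin d) (Fin d) ℝ, ∃ h ∈ OrbitClosure h₀,
          ∀ (n : ℕ) (c : ℝ), ¬ EquivTo c h (S n)) ∧
        AllScales h₀) ∧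
      -- 3. the conjecture
      (Conj d ↔ νs = 0)) ∧
    (Conj d ↔ ∃ S : ℕ → Matrix (Fin d) (Fin d) ℝ, ∀ g : Matrix (Fin d) (Fin d) ℝ, g.det ≠ 0 →
      (∃ ν : ℝ, 0 < ν ∧ AtLeast ν g) → ∃ (n : ℕ) (c : ℝ), EquivTo c g (S n)) := by
  classical
  have hd0 : 0 < d := by omega
  -- the threshold
  set s : ℝ := sSup (Low d ∪ {0}) with hs
  have hbdd : BddAbove (Low d ∪ {0}) := (low_bdd hd0).union (bddAbove_singleton)
  have hs0 : 0 ≤ s := le_csSup hbdd (Or.inr rfl)
  have hlow : ∀ ν ∈ Low d, ν ≤ s := fun ν hν => le_csSup hbdd (Or.inl hν)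
  have hssup : 0 < s → s = sSup (Low d) := by
    intro hpos
    have hne : (Low d).Nonempty := by
      by_contra hcon
      rw [Set.not_nonempty_iff_eq_empty] at hcon
      rw [hs, hcon, Set.empty_union, csSup_singleton] at hpos
      exact lt_irrefl _ hpos
    have h1 : s = sSup (Low d) ⊔ sSup {0} :=
      csSup_union (low_bdd hd0) hne bddAbove_singleton (Set.singleton_nonempty 0)
    rw [csSup_singleton] at h1
    rcases le_total (sSup (Low d)) 0 with h2 | h2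
    · rw [sup_eq_right.2 h2] at h1
      exact absurd h1 hpos.ne'
    · rwa [sup_eq_left.2 h2] at h1
  have habove : ∀ ν : ℝ, s < ν → ∃ S : Finset (Matrix (Fin d) (Fin d) ℝ),
        (∀ h ∈ S, |h.det| = 1 ∧ AtLeast ν h ∧ PropInt h) ∧
        ∀ g : Matrix (Fin d) (Fin d) ℝ, |g.det| = 1 → AtLeast ν g →
          PropInt g ∧ ∃ h ∈ S, EquivTo 1 g h := by
    intro ν hν
    have hall : ∀ g : Matrix (Fin d) (Fin d) ℝ, |g.det| = 1 → AtLeast ν g → PropInt g := by
      intro g hdet hnu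
      by_contra hint
      exact absurd (hlow ν ⟨g, hdet, hint, hnu⟩) (not_le.2 hν)
    obtain ⟨S, hS1, hS2⟩ := finite_above hd (hs0.trans_lt hν) hall
    exact ⟨S, fun h hh => ⟨(hS1 h hh).1, (hS1 h hh).2, hall h (hS1 h hh).1 (hS1 h hh).2⟩,
      fun g hdet hnu => ⟨hall g hdet hnu, hS2 g hdet hnu⟩⟩
  have hat : 0 < s → ∃ h₀ : Matrix (Fin d) (Fin d) ℝ, Recurrent h₀ ∧
        (∃ x₀ : Fin d → ℤ, x₀ ≠ 0 ∧ |F h₀ x₀| = s) ∧
        (∀ h ∈ OrbitClosure h₀, |h.det| = 1 ∧ ¬ PropInt h ∧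
          IsGLB {t : ℝ | ∃ x : Fin d → ℤ, x ≠ 0 ∧ |F h x| = t} s) ∧
        (∀ S : ℕ → Matrix (Fin d) (Fin d) ℝ, ∃ h ∈ OrbitClosure h₀,
          ∀ (n : ℕ) (c : ℝ), ¬ EquivTo c h (S n)) ∧
        AllScales h₀ := by
    intro hpos
    obtain ⟨g, hgdet, hgint, hgnu⟩ := low_attained hd (by rw [← hssup hpos]; exact hpos)
    rw [← hssup hpos] at hgnu
    have hg0 := det_of_abs_one hgdet
    obtain ⟨h₀, hh₀, hrec, x₀, hx₀, hmin⟩ :=
      TH314.CSD.exists_recurrent_attained hd0 hpos hg0 hgnu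
    have hcl : ∀ h ∈ closure (H715R2.Orb h₀), |h.det| = 1 ∧ ¬ PropInt h ∧ AtLeast s h := by
      intro h hh
      have hh' := TH314.CSD.orb_closure_trans hh₀ hh
      exact ⟨(H715R2.abs_det_closure hh').trans hgdet,
        Pool.Agent.Y327.not_propInt_closure hd hg0 hpos hgnu hgint hh',
        H715R2.hasNu_closure hgnu hh'⟩
    have hself := hcl h₀ (subset_closure (H715R2.mem_orb_self h₀))
    refine ⟨h₀, (recurrent_iff h₀).2 hrec, ⟨x₀, hx₀, ?_⟩, ?_, ?_, ?_⟩
    · refine le_antisymm ?_ (hself.2.2 x₀ hx₀)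
      exact hlow _ ⟨h₀, hself.1, hself.2.1, hmin⟩
    · intro h hh
      rw [closure_eq] at hh
      obtain ⟨h1, h2, h3⟩ := hcl h hh
      refine ⟨h1, h2, ?_, ?_⟩
      · rintro t ⟨x, hx, rfl⟩
        exact h3 x hx
      · intro b hb
        exact hlow b ⟨h, h1, h2, fun x hx => hb ⟨x, hx, rfl⟩⟩
    · intro S
      obtain ⟨g', hg', -, -, hne⟩ := H715R2.uncountable_family hd (det_of_abs_one hself.1) hpos
        hself.2.2 hself.2.1 S
      refine ⟨g', by rw [closure_eq]; exact hg', ?_⟩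
      rintro n c ⟨γ, hγ, heq⟩
      obtain ⟨x, hx⟩ := hne n γ c (Int.isUnit_iff_abs_eq.2 hγ)
      exact hx (heq x)
    · exact (TH314.CSD.recurrent_values hd hg0 hpos hgnu hgint hh₀ hrec).2.1
  have hconj : Conj d ↔ s = 0 := by
    constructor
    · intro hC
      by_contra hne
      have hpos : 0 < s := lt_of_le_of_ne hs0 (Ne.symm hne)
      obtain ⟨g, hgdet, hgint, hgnu⟩ := low_attained hd (by rw [← hssup hpos]; exact hpos)
      rw [← hssup hpos] at hgnu
      obtain ⟨x, hx, hx2⟩ := hC g (det_of_abs_one hgdet) hgint s hpos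
      exact absurd (hgnu x hx) (not_le.2 hx2)
    · intro h0 g hg hint ε hε
      by_contra hcon
      push Not at hcon
      obtain ⟨t, ht, ht1, ht2⟩ := exists_norm hd0 hg
      have hV : 0 < |g.det| := abs_pos.2 hg
      have h1 : ε / |g.det| ∈ Low d := by
        refine ⟨t • g, ht1, fun hP => hint ?_, fun x hx => ?_⟩
        · have := propInt_smul (inv_ne_zero ht.ne') hP
          rwa [smul_smul, inv_mul_cancel₀ ht.ne', one_smul] at this
        · have h2 := hcon x hx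
          rw [ht2, abs_mul, abs_abs] at h2
          rw [div_le_iff₀ hV]
          linarith
      have h3 := hlow _ h1
      rw [h0] at h3
      exact absurd h3 (not_le.2 (by positivity))
  refine ⟨⟨s, hs0, habove, hat, hconj⟩, ?_, ?_⟩
  · -- countably many classes
    intro hC
    have h0 : s = 0 := hconj.1 hC
    have hS : ∀ n : ℕ, ∃ S : Finset (Matrix (Fin d) (Fin d) ℝ),
        ∀ g : Matrix (Fin d) (Fin d) ℝ, |g.det| = 1 → AtLeast (1 / ((n : ℝ) + 1)) g →
          ∃ h ∈ S, EquivTo 1 g h := by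
      intro n
      obtain ⟨S, -, hS⟩ := habove (1 / ((n : ℝ) + 1)) (by rw [h0]; positivity)
      exact ⟨S, fun g h1 h2 => (hS g h1 h2).2⟩
    choose S hS using hS
    have hcount : (⋃ n, (S n : Set (Matrix (Fin d) (Fin d) ℝ)) ∪ {1}).Countable :=
      Set.countable_iUnion fun n => ((S n).countable_toSet).union (Set.countable_singleton 1)
    obtain ⟨e, he⟩ := hcount.exists_eq_range ⟨1, Set.mem_iUnion.2 ⟨0, Or.inr rfl⟩⟩
    refine ⟨e, fun g hg ⟨ν, hν, hnu⟩ => ?_⟩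
    obtain ⟨t, ht, ht1, ht2⟩ := exists_norm hd0 hg
    have hV : 0 < |g.det| := abs_pos.2 hg
    obtain ⟨n, hn⟩ := exists_nat_one_div_lt (div_pos hν hV)
    obtain ⟨h, hhS, γ, hγ, hγ2⟩ := hS n (t • g) ht1 (fun x hx => by
      have h2 := hnu x hx
      rw [ht2, abs_mul, abs_abs] at h2
      have h3 : ν / |g.det| ≤ |F (t • g) x| := by
        rw [div_le_iff₀ hV]
        linarith
      exact hn.le.trans h3)
    have hmem : h ∈ Set.range e := by
      rw [← he]
      exact Set.mem_iUnion.2 ⟨n, Or.inl hhS⟩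
    obtain ⟨k, hk⟩ := hmem
    refine ⟨k, |g.det|, γ, hγ, fun x => ?_⟩
    rw [ht2, hγ2, one_mul, hk]
  · rintro ⟨S, hS⟩ g hg hint ε hε
    by_contra hcon
    push Not at hcon
    obtain ⟨g', hg', hnu', -, hne⟩ := H715R2.uncountable_family hd hg hε hcon hint S
    have hdet' : g'.det ≠ 0 := by
      rw [← abs_ne_zero, H715R2.abs_det_closure hg', abs_ne_zero]
      exact hg
    obtain ⟨n, c, γ, hγ, heq⟩ := hS g' hdet' ⟨ε, hε, hnu'⟩
    obtain ⟨x, hx⟩ := hne n γ c (Int.isUnit_iff_abs_eq.2 hγ)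
    exact hx (heq x)

end Pool.Agent.Results.MP_edeaa2_an.Threshold
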